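import Mathlib

/-!
# Folding a product of irreducible polynomials need not give a pseudo-random array code

We disprove the statement that, for `n₁ < r₁ < 2 n₁` and distinct irreducible polynomials
`f₁, …, f_ℓ` over `𝔽₂` of degree `n₁ n₂` and exponent `r₁ r₂` whose foldings are
`(r₁, r₂; n₁, n₂)`-PRACs, the folding of the product of any `k` of them is an
`(r₁, r₂; n₁, k n₂)`-PRAC.

The counterexample has `(n₁, n₂) = (3, 4)`, `(r₁, r₂) = (5, 117)`, `k = ℓ = 2`,
`f₁ = x¹² + x¹⁰ + x⁹ + x⁶ + x³ + x + 1` and `f₂ = x¹² + x⁹ + x⁸ + x⁷ + x⁴ + x³ + x² + x + 1`.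
-/

namespace Pool.Agent.Results.MP_2c8f22_co.FoldingProduct

open Polynomial

/-- `s` is generated by `f`: it satisfies the linear recurrence with characteristic
polynomial `f`. -/
def IsGen (f : (ZMod 2)[X]) (s : ℕ → ZMod 2) : Prop :=
  ∀ n, ∑ k ∈ Finset.range (f.natDegree + 1), f.coeff k * s (n + k) = 0

/-- The exponent of `f`: the least `e ≥ 1` with `f ∣ x ^ e - 1`. -/
noncomputable def exponent (f : (ZMod 2)[X]) : ℕ := sInf {e | 1 ≤ e ∧ f ∣ X ^ e - 1}

/-- Doubly periodic binary `r₁ × r₂` arrays. -/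
abbrev Arr (r1 r2 : ℕ) : Type := ZMod r1 → ZMod r2 → ZMod 2

/-- `A` is the folding of the sequence `s`: `A[i mod r₁, i mod r₂] = s i` for
`0 ≤ i < r₁ r₂`. -/
def IsFold (r1 r2 : ℕ) (s : ℕ → ZMod 2) (A : Arr r1 r2) : Prop :=
  ∀ i < r1 * r2, A (i : ZMod r1) (i : ZMod r2) = s i

/-- The cyclic shift of an array by `(a, b)`. -/
def cshift {r1 r2 : ℕ} (a : ZMod r1) (b : ZMod r2) (A : Arr r1 r2) : Arr r1 r2 :=
  fun x y => A (x + a) (y + b)

/-- The `n₁ × n₂` window of the array `A` at position `(i, j)`. -/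
def window (n1 n2 : ℕ) {r1 r2 : ℕ} (A : Arr r1 r2) (i : ZMod r1) (j : ZMod r2) :
    Fin n1 → Fin n2 → ZMod 2 :=
  fun a b => A (i + ((a : ℕ) : ZMod r1)) (j + ((b : ℕ) : ZMod r2))

/-- `C` is an `(r₁, r₂; n₁, n₂)`-PRAC (pseudo-random array code). -/
structure IsPRAC (r1 r2 n1 n2 : ℕ) (C : Set (Arr r1 r2)) : Prop where
  /-- `r₁ r₂` divides `2 ^ (n₁ n₂) - 1` -/
  dvd : r1 * r2 ∣ 2 ^ (n1 * n2) - 1
  /-- every nonzero matrix occurs exactly once as a window of exactly one array of `C` -/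
  window_unique : ∀ M : Fin n1 → Fin n2 → ZMod 2, M ≠ 0 →
    ∃! p : Arr r1 r2 × ZMod r1 × ZMod r2, p.1 ∈ C ∧ window n1 n2 p.1 p.2.1 p.2.2 = M
  /-- the shift-and-add property -/
  add_mem : ∀ A B : Arr r1 r2,
    ((A ∈ C ∧ B ∈ C ∧ A ≠ B) ∨ (A ∈ C ∧ (∃ a b, B = cshift a b A) ∧ A ≠ B)) →
      ∃ D ∈ C, ∃ a b, A + B = cshift a b D

/-- `C` is a set of arrays obtained by folding the nonzero sequences generated by `f`, one for
each class of sequences under shifts: `R` is a system of representatives of the shift classes. -/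
def IsFolding (r1 r2 : ℕ) (f : (ZMod 2)[X]) (C : Set (Arr r1 r2)) : Prop :=
  ∃ R : Set (ℕ → ZMod 2), (∀ s ∈ R, IsGen f s ∧ s ≠ 0) ∧
    (∀ s, IsGen f s → s ≠ 0 → ∃! t, t ∈ R ∧ ∃ k : ℕ, ∀ n, s n = t (n + k)) ∧
    C = {A | ∃ s ∈ R, IsFold r1 r2 s A}

/-! ### Evaluation of masks on sequences -/

section masks

variable {V : Type*} [AddCommGroup V]

/-- The value of the mask `a` on the sequence `s` at position `m`. -/
def ev (N : ℕ) (s : ℕ → V) (a m : ℕ) : V :=
  ∑ k ∈ Finset.range N, if a.testBit k then s (m + k) else 0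

/-- Multiplication by `x` modulo the polynomial with mask `F` of degree `N`. -/
def mulx (N F a : ℕ) : ℕ := if (2 * a).testBit N then (2 * a) ^^^ F else 2 * a

/-- The mask of `x ^ n` modulo `F`. -/
def rm (N F : ℕ) (n : ℕ) : ℕ := Nat.rec 1 (fun _ a => mulx N F a) n

/-- Exclusive or of the masks of the elements of a list. -/
def xl (N F : ℕ) (l : List ℕ) : ℕ := l.foldr (fun n a => rm N F n ^^^ a) 0

/-- The recurrence given by a mask. -/
def Rec (N F : ℕ) (s : ℕ → V) : Prop :=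
  ∀ n, ∑ k ∈ Finset.range (N + 1), (if F.testBit k then s (n + k) else 0) = 0

lemma ev_xor (h2 : ∀ x : V, x + x = 0) (N : ℕ) (s : ℕ → V) (a b m : ℕ) :
    ev N s (a ^^^ b) m = ev N s a m + ev N s b m := by
  unfold ev
  rw [← Finset.sum_add_distrib]
  refine Finset.sum_congr rfl fun k _ => ?_
  rw [Nat.testBit_xor]
  cases a.testBit k <;> cases b.testBit k <;> simp [h2]

lemma ev_succ_of_testBit {N : ℕ} {s : ℕ → V} {a m : ℕ} (h : a.testBit N = false) :
    ev (N + 1) s a m = ev N s a m := by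
  unfold ev
  rw [Finset.sum_range_succ, h]
  simp

lemma ev_two_mul (N : ℕ) (s : ℕ → V) (a m : ℕ) : ev (N + 1) s (2 * a) m = ev N s a (m + 1) := by
  unfold ev
  rw [Finset.sum_range_succ']
  simp only [Nat.testBit_zero, Nat.mul_mod_right, Nat.testBit_succ,
    Nat.mul_div_cancel_left a (show 0 < 2 by norm_num)]
  simp only [zero_ne_one, decide_false, Bool.false_eq_true, if_false, add_zero]
  refine Finset.sum_congr rfl fun k _ => ?_
  rw [show m + (k + 1) = m + 1 + k by omega]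

lemma ev_mulx (h2 : ∀ x : V, x + x = 0) {N F : ℕ} {s : ℕ → V} (hs : Rec N F s)
    (hF : F.testBit N = true) (a m : ℕ) : ev N s (mulx N F a) m = ev N s a (m + 1) := by
  rw [← ev_two_mul]
  unfold mulx
  split_ifs with h
  · rw [← ev_succ_of_testBit (N := N) (a := (2 * a) ^^^ F), ev_xor h2]
    · have : ev (N + 1) s F m = 0 := hs m
      rw [this, add_zero]
    · rw [Nat.testBit_xor, h, hF]; rfl
  · rw [ev_succ_of_testBit (by simpa using h)]

lemma rm_succ (N F n : ℕ) : rm N F (n + 1) = mulx N F (rm N F n) := rfl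

lemma ev_rm (h2 : ∀ x : V, x + x = 0) {N F : ℕ} {s : ℕ → V} (hs : Rec N F s)
    (hF : F.testBit N = true) (hN : 0 < N) (n m : ℕ) : ev N s (rm N F n) m = s (n + m) := by
  induction n generalizing m with
  | zero =>
    show ev N s 1 m = _
    unfold ev
    rw [Finset.sum_eq_single_of_mem 0 (Finset.mem_range.2 hN)]
    · simp
    · intro k _ hk
      have : Nat.testBit 1 k = false := by
        cases k with
        | zero => exact absurd rfl hk
        | succ k => simp [Nat.testBit_succ]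
      simp [this]
  | succ n ih =>
    rw [rm_succ, ev_mulx h2 hs hF, ih]
    congr 1
    omega

lemma ev_xl (h2 : ∀ x : V, x + x = 0) {N F : ℕ} {s : ℕ → V} (hs : Rec N F s)
    (hF : F.testBit N = true) (hN : 0 < N) (l : List ℕ) (m : ℕ) :
    ev N s (xl N F l) m = (l.map fun n => s (n + m)).sum := by
  induction l with
  | nil => simp [xl, ev]
  | cons n l ih =>
    show ev N s (rm N F n ^^^ xl N F l) m = _
    rw [ev_xor h2, ih, ev_rm h2 hs hF hN]
    simp

/-- If all terms of the combinations `Q k`, `k < N`, vanish then the sequence vanishes. -/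
lemma eq_zero_of_window (h2 : ∀ x : V, x + x = 0) {N F : ℕ} {s : ℕ → V} (hs : Rec N F s)
    (hF : F.testBit N = true) (hN : 0 < N) (Q : List (List ℕ))
    (hQ : ∀ k < N, xl N F (Q.getD k []) = 2 ^ k)
    (hw : ∀ k < N, ∀ c ∈ Q.getD k [], s c = 0) : s = 0 := by
  have h0 : ∀ k < N, s k = 0 := by
    intro k hk
    have h1 := ev_xl h2 hs hF hN (Q.getD k []) 0
    rw [hQ k hk] at h1
    have h3 : ev N s (2 ^ k) 0 = s k := by
      unfold ev
      rw [Finset.sum_eq_single_of_mem k (Finset.mem_range.2 hk)]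
      · simp
      · intro j _ hj
        have : Nat.testBit (2 ^ k) j = false := Nat.testBit_two_pow_of_ne (Ne.symm hj)
        simp [this]
    rw [h3] at h1
    rw [h1]
    apply List.sum_eq_zero
    intro x hx
    obtain ⟨c, hc, rfl⟩ := List.mem_map.1 hx
    exact hw k hk c hc
  funext n
  have := ev_rm h2 hs hF hN n 0
  rw [add_zero] at this
  rw [← this]
  unfold ev
  refine Finset.sum_eq_zero fun k hk => ?_
  split_ifs
  · rw [zero_add]; exact h0 k (Finset.mem_range.1 hk)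
  · rfl

/-- The sequence has period `e` if `x ^ e = 1` modulo `F`. -/
lemma periodic_of_rm (h2 : ∀ x : V, x + x = 0) {N F : ℕ} {s : ℕ → V} (hs : Rec N F s)
    (hF : F.testBit N = true) (hN : 0 < N) {e : ℕ} (he : rm N F e = 1) (m : ℕ) :
    s (m + e) = s m := by
  have h1 := ev_rm h2 hs hF hN e m
  rw [he] at h1
  have h3 := ev_rm h2 hs hF hN 0 m
  have h4 : rm N F 0 = 1 := rfl
  rw [h4, h1, zero_add] at h3
  rw [add_comm]
  exact h3

lemma sum_flatMap (s : ℕ → V) (e m : ℕ) (U : List ℕ) (hp : ∀ n, s (n + e) = s n)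
    (h2 : ∀ x : V, x + x = 0) :
    ((U.flatMap fun i => [e + i, i]).map fun n => s (n + m)).sum = 0 := by
  induction U with
  | nil => simp
  | cons i U ih =>
    rw [List.flatMap_cons, List.map_append, List.sum_append, ih, add_zero]
    simp only [List.map_cons, List.map_nil, List.sum_cons, List.sum_nil, add_zero]
    rw [show e + i + m = i + m + e by omega, hp, h2]

/-- No nonzero sequence has period `e` if `x ^ e + 1` is invertible modulo `F`. -/
lemma eq_zero_of_periodic (h2 : ∀ x : V, x + x = 0) {N F : ℕ} {s : ℕ → V} (hs : Rec N F s)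
    (hF : F.testBit N = true) (hN : 0 < N) {e : ℕ} (U : List ℕ)
    (hU : xl N F (U.flatMap fun i => [e + i, i]) = 1) (hp : ∀ n, s (n + e) = s n) : s = 0 := by
  funext m
  have h1 := ev_xl h2 hs hF hN (U.flatMap fun i => [e + i, i]) m
  rw [hU, sum_flatMap s e m U hp h2] at h1
  have h3 := ev_rm h2 hs hF hN 0 m
  have h4 : rm N F 0 = 1 := rfl
  rw [h4, h1, zero_add] at h3
  exact h3.symm

end masks

/-! ### Computations -/

/-- Mask of `f₁`. -/
def F1 : ℕ := 0b1011001001011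
/-- Mask of `f₂`. -/
def F2 : ℕ := 0b1001110011111
/-- Mask of `f₁ f₂`. -/
def F3 : ℕ := 0b1010101001111110110011001

def Q1 : List (List ℕ) := [[0], [1], [2], [235, 236, 471, 117], [0, 120, 351, 236, 117],
  [235, 470, 120, 351, 1, 471, 117, 352, 2, 237], [235, 470, 120, 1, 117, 352, 237],
  [0, 235, 120, 236, 471, 117, 352, 237], [470, 120, 236, 2], [235, 1, 236, 471, 352, 2],
  [470, 351, 117, 237], [235, 120, 351, 471, 117, 2]]
def Q2 : List (List ℕ) := [[0], [1], [2], [235, 470, 236, 471, 117],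
  [0, 235, 470, 120, 351, 236, 2, 237], [235, 120, 1, 471, 117, 237], [0, 235, 351, 236, 352],
  [0, 351, 471, 117, 237], [0, 235, 470, 351, 117, 352], [235, 120, 351, 471, 2, 237],
  [235, 470, 120, 351, 237], [470, 120, 236]]

lemma rm1 : rm 12 F1 585 = 1 := by decide +kernel
lemma rm2 : rm 12 F2 585 = 1 := by decide +kernel
lemma rm3 : rm 24 F3 585 = 1 := by decide +kernel
lemma hQ1 : ∀ k < 12, xl 12 F1 (Q1.getD k []) = 2 ^ k := by decide +kernel
lemma hQ2 : ∀ k < 12, xl 12 F2 (Q2.getD k []) = 2 ^ k := by decide +kernel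
lemma u1a : xl 12 F1 ([0, 2, 4, 6, 7, 8, 11].flatMap fun i => [195 + i, i]) = 1 := by
  decide +kernel
lemma u1b : xl 12 F1 ([0, 4, 5, 9, 10].flatMap fun i => [117 + i, i]) = 1 := by
  decide +kernel
lemma u1c : xl 12 F1 ([0, 1, 2, 4, 6, 7].flatMap fun i => [45 + i, i]) = 1 := by
  decide +kernel
lemma u2a : xl 12 F2 ([0, 1, 2, 4, 6, 7, 8, 9, 10].flatMap fun i => [195 + i, i]) = 1 := by
  decide +kernel
lemma u2b : xl 12 F2 ([1, 2, 5, 9].flatMap fun i => [117 + i, i]) = 1 := by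
  decide +kernel
lemma u2c : xl 12 F2 ([0, 3, 5, 6, 7, 11].flatMap fun i => [45 + i, i]) = 1 := by
  decide +kernel

/-! ### Polynomials -/

/-- `F` is the mask of the polynomial `f` of degree `N`. -/
structure Mask (f : (ZMod 2)[X]) (N F : ℕ) : Prop where
  deg : f.natDegree = N
  coeff : ∀ k ∈ Finset.range (N + 1), f.coeff k = if F.testBit k then 1 else 0
  top : F.testBit N = true
  pos : 0 < N

lemma Mask.isGen_iff {f : (ZMod 2)[X]} {N F : ℕ} (h : Mask f N F) (s : ℕ → ZMod 2) :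
    IsGen f s ↔ Rec N F s := by
  unfold IsGen Rec
  refine forall_congr' fun n => ?_
  rw [h.deg]
  have : ∀ k ∈ Finset.range (N + 1), f.coeff k * s (n + k) =
      if F.testBit k then s (n + k) else 0 := by
    intro k hk
    rw [h.coeff k hk]
    split_ifs <;> simp
  rw [Finset.sum_congr rfl this]

lemma Mask.rec_pow {f : (ZMod 2)[X]} {N F : ℕ} (h : Mask f N F) {K : Type*} [CommRing K]
    [Algebra (ZMod 2) K] (β : K) (hβ : aeval β f = 0) : Rec N F (fun n => β ^ n) := by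
  intro n
  have h1 : ∀ k ∈ Finset.range (N + 1), (if F.testBit k then β ^ (n + k) else 0) =
      β ^ n * (f.coeff k • β ^ k) := by
    intro k hk
    rw [h.coeff k hk]
    split_ifs
    · rw [one_smul, pow_add]
    · simp
  rw [Finset.sum_congr rfl h1, ← Finset.mul_sum, ← h.deg, ← aeval_eq_sum_range, hβ, mul_zero]

lemma add_self_algebra {K : Type*} [CommRing K] [Algebra (ZMod 2) K] (x : K) : x + x = 0 := by
  have h : algebraMap (ZMod 2) K (1 + 1) = 0 := by
    rw [show (1 + 1 : ZMod 2) = 0 by decide, map_zero]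
  rw [map_add, map_one] at h
  calc x + x = (1 + 1) * x := by ring
    _ = 0 := by rw [h, zero_mul]

/-- The certificate that the exponent is `585` and the polynomial is irreducible. -/
structure Cert (F : ℕ) : Prop where
  one : rm 12 F 585 = 1
  a : ∃ U : List ℕ, xl 12 F (U.flatMap fun i => [195 + i, i]) = 1
  b : ∃ U : List ℕ, xl 12 F (U.flatMap fun i => [117 + i, i]) = 1
  c : ∃ U : List ℕ, xl 12 F (U.flatMap fun i => [45 + i, i]) = 1

lemma Mask.ne_one {f : (ZMod 2)[X]} {F : ℕ} (h : Mask f 12 F) {K : Type*} [Field K]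
    [Algebra (ZMod 2) K] (β : K) (hβ : aeval β f = 0) {e : ℕ}
    (hU : ∃ U : List ℕ, xl 12 F (U.flatMap fun i => [e + i, i]) = 1) : β ^ e ≠ 1 := by
  intro he
  obtain ⟨U, hU⟩ := hU
  have := eq_zero_of_periodic add_self_algebra (h.rec_pow β hβ) h.top h.pos U hU
    (fun n => by show β ^ (n + e) = β ^ n; rw [pow_add, he, mul_one])
  have h0 := congrFun this 0
  simp at h0

lemma Mask.orderOf {f : (ZMod 2)[X]} {F : ℕ} (h : Mask f 12 F) (hc : Cert F) {K : Type*}
    [Field K] [Algebra (ZMod 2) K] (β : K) (hβ : aeval β f = 0) : orderOf β = 585 := by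
  have h1 : β ^ 585 = 1 := by
    have := periodic_of_rm add_self_algebra (h.rec_pow β hβ) h.top h.pos hc.one 0
    simpa using this
  refine orderOf_eq_of_pow_and_pow_div_prime (by norm_num) h1 ?_
  intro p hp hd
  have : p = 3 ∨ p = 5 ∨ p = 13 := by
    have h585 : 585 = 3 * 3 * 5 * 13 := by norm_num
    rw [h585, Nat.Prime.dvd_mul hp, Nat.Prime.dvd_mul hp, Nat.Prime.dvd_mul hp] at hd
    have e3 := (Nat.prime_dvd_prime_iff_eq hp (by norm_num : Nat.Prime 3))
    have e5 := (Nat.prime_dvd_prime_iff_eq hp (by norm_num : Nat.Prime 5))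
    have e13 := (Nat.prime_dvd_prime_iff_eq hp (by norm_num : Nat.Prime 13))
    rw [e3, e5, e13] at hd
    tauto
  rcases this with rfl | rfl | rfl
  · exact h.ne_one β hβ hc.a
  · exact h.ne_one β hβ hc.b
  · exact h.ne_one β hβ hc.c

/-- An irreducible factor of `f` has degree `12`. -/
lemma Mask.natDegree_factor {f g : (ZMod 2)[X]} {F : ℕ} (h : Mask f 12 F) (hc : Cert F)
    (hg : Irreducible g) (hgf : g ∣ f) : g.natDegree = 12 := by
  have := Fact.mk hg
  have hg0 : g ≠ 0 := hg.ne_zero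
  let K := AdjoinRoot g
  let β : K := AdjoinRoot.root g
  have hβ : aeval β f = 0 := by
    obtain ⟨q, rfl⟩ := hgf
    rw [map_mul, AdjoinRoot.aeval_eq, AdjoinRoot.mk_self, zero_mul]
  have hord := h.orderOf hc β hβ
  have : Module.Finite (ZMod 2) K := (AdjoinRoot.powerBasis hg0).finite
  have : Finite K := Module.finite_of_finite (ZMod 2)
  let : Fintype K := Fintype.ofFinite K
  have hcard : Fintype.card K = 2 ^ g.natDegree := by
    rw [Module.card_eq_pow_finrank (K := ZMod 2) (V := K), ZMod.card,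
      (AdjoinRoot.powerBasis hg0).finrank, AdjoinRoot.powerBasis_dim]
  have hβ0 : β ≠ 0 := by
    intro h0
    rw [h0] at hord
    simp at hord
  have hdvd : 585 ∣ 2 ^ g.natDegree - 1 := by
    rw [← hcard, ← hord]
    exact orderOf_dvd_of_pow_eq_one (FiniteField.pow_card_sub_one_eq_one β hβ0)
  have hf0 : f ≠ 0 := by
    intro h0
    have := h.deg
    rw [h0, natDegree_zero] at this
    omega
  have hle : g.natDegree ≤ 12 := h.deg ▸ natDegree_le_of_dvd hgf hf0
  have hpos : 0 < g.natDegree := hg.natDegree_pos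
  interval_cases hd : g.natDegree <;> first | rfl | (exfalso; revert hdvd; decide)

lemma Mask.irreducible {f : (ZMod 2)[X]} {F : ℕ} (h : Mask f 12 F) (hc : Cert F) :
    Irreducible f := by
  have hf0 : f ≠ 0 := by
    intro h0
    have := h.deg
    rw [h0, natDegree_zero] at this
    omega
  have hu : ¬ IsUnit f := by
    intro hu
    have := natDegree_eq_zero_of_isUnit hu
    rw [h.deg] at this
    omega
  obtain ⟨g, hg, q, hq⟩ := WfDvdMonoid.exists_irreducible_factor hu hf0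
  have hd := h.natDegree_factor hc hg ⟨q, hq⟩
  have hq0 : q ≠ 0 := by
    rintro rfl
    rw [mul_zero] at hq
    exact hf0 hq
  have hdq : q.natDegree = 0 := by
    have := h.deg
    rw [hq, natDegree_mul hg.ne_zero hq0, hd] at this
    omega
  have hqu : IsUnit q := by
    rw [natDegree_eq_zero] at hdq
    obtain ⟨c, rfl⟩ := hdq
    exact isUnit_C.2 (isUnit_iff_ne_zero.2 fun hc0 => hq0 (by rw [hc0, C_0]))
  rw [hq]
  exact (associated_mul_unit_right g q hqu).irreducible hg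

lemma Mask.exponent_eq {f : (ZMod 2)[X]} {F : ℕ} (h : Mask f 12 F) (hc : Cert F) :
    exponent f = 585 := by
  have := Fact.mk (h.irreducible hc)
  let β : AdjoinRoot f := AdjoinRoot.root f
  have hβ : aeval β f = 0 := by rw [AdjoinRoot.aeval_eq, AdjoinRoot.mk_self]
  have hord := h.orderOf hc β hβ
  have key : ∀ e : ℕ, f ∣ X ^ e - 1 ↔ β ^ e = 1 := by
    intro e
    rw [← AdjoinRoot.mk_eq_zero, map_sub, map_pow, map_one, AdjoinRoot.mk_X, sub_eq_zero]
  have hS : {e | 1 ≤ e ∧ f ∣ X ^ e - 1} = {e | 1 ≤ e ∧ 585 ∣ e} := by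
    ext e
    simp only [Set.mem_ofPred_eq, key, ← hord, orderOf_dvd_iff_pow_eq_one]
  rw [exponent, hS]
  refine le_antisymm (Nat.sInf_le ⟨by norm_num, dvd_rfl⟩) ?_
  refine le_csInf ⟨585, by norm_num, dvd_rfl⟩ ?_
  rintro e ⟨h1, h2⟩
  exact Nat.le_of_dvd h1 h2

/-- `f₁` -/
noncomputable def f1 : (ZMod 2)[X] := X ^ 12 + X ^ 10 + X ^ 9 + X ^ 6 + X ^ 3 + X + 1
/-- `f₂` -/
noncomputable def f2 : (ZMod 2)[X] :=
  X ^ 12 + X ^ 9 + X ^ 8 + X ^ 7 + X ^ 4 + X ^ 3 + X ^ 2 + X + 1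

lemma mask1 : Mask f1 12 F1 where
  deg := by unfold f1; compute_degree!
  coeff := by
    intro k hk
    rw [Finset.mem_range] at hk
    unfold f1
    interval_cases k <;> simp [coeff_X_pow, coeff_one, coeff_X] <;> decide
  top := by decide
  pos := by norm_num

lemma mask2 : Mask f2 12 F2 where
  deg := by unfold f2; compute_degree!
  coeff := by
    intro k hk
    rw [Finset.mem_range] at hk
    unfold f2
    interval_cases k <;> simp [coeff_X_pow, coeff_one, coeff_X] <;> decide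
  top := by decide
  pos := by norm_num

lemma f1_mul_f2 : f1 * f2 = X ^ 24 + X ^ 22 + X ^ 20 + X ^ 18 + X ^ 15 + X ^ 14 + X ^ 13 +
    X ^ 12 + X ^ 11 + X ^ 10 + X ^ 8 + X ^ 7 + X ^ 4 + X ^ 3 + 1 := by
  have h2 : (2 : (ZMod 2)[X]) = 0 := CharTwo.two_eq_zero
  unfold f1 f2
  linear_combination (X ^ 21 + X ^ 19 + X ^ 18 + X ^ 17 + X ^ 16 + X ^ 15 + X ^ 14 + 2 * X ^ 13 +
    2 * X ^ 12 + X ^ 11 + 2 * X ^ 10 + 2 * X ^ 9 + X ^ 8 + X ^ 7 + X ^ 6 + X ^ 5 + X ^ 4 + X ^ 3 +
    X ^ 2 + X ^ 1) * h2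

lemma mask3 : Mask (f1 * f2) 24 F3 where
  deg := by rw [f1_mul_f2]; compute_degree!
  coeff := by
    intro k hk
    rw [Finset.mem_range] at hk
    rw [f1_mul_f2]
    interval_cases k <;> simp [coeff_X_pow, coeff_one, coeff_X] <;> decide
  top := by decide
  pos := by norm_num

/-! ### Arrays -/

/-- Period `585`. -/
def Per (s : ℕ → ZMod 2) : Prop := ∀ n, s (n + 585) = s n

lemma exists_crt (x : ZMod 5) (y : ZMod 117) :
    ∃ n : ℕ, n < 585 ∧ (n : ZMod 5) = x ∧ (n : ZMod 117) = y := by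
  obtain ⟨k, h1, h2⟩ := Nat.chineseRemainder (show Nat.Coprime 5 117 by norm_num) x.val y.val
  refine ⟨k % 585, Nat.mod_lt _ (by norm_num), ?_, ?_⟩
  · rw [← ZMod.natCast_zmod_val x, ZMod.natCast_eq_natCast_iff]
    exact ((Nat.mod_modEq k 585).of_dvd (by norm_num)).trans h1
  · rw [← ZMod.natCast_zmod_val y, ZMod.natCast_eq_natCast_iff]
    exact ((Nat.mod_modEq k 585).of_dvd (by norm_num)).trans h2

lemma IsFold.apply {s : ℕ → ZMod 2} (hs : Per s) {A : Arr 5 117} (hA : IsFold 5 117 s A)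
    (n : ℕ) : A (n : ZMod 5) (n : ZMod 117) = s n := by
  have h1 : (n : ZMod 5) = ((n % 585 : ℕ) : ZMod 5) :=
    (ZMod.natCast_eq_natCast_iff _ _ _).2 ((Nat.mod_modEq n 585).of_dvd (by norm_num)).symm
  have h2 : (n : ZMod 117) = ((n % 585 : ℕ) : ZMod 117) :=
    (ZMod.natCast_eq_natCast_iff _ _ _).2 ((Nat.mod_modEq n 585).of_dvd (by norm_num)).symm
  rw [h1, h2, hA _ (by show n % 585 < 5 * 117; exact Nat.mod_lt _ (by norm_num))]
  exact Function.Periodic.map_mod_nat (f := s) (a := 585) hs n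

lemma exists_fold {s : ℕ → ZMod 2} (hs : Per s) : ∃ A : Arr 5 117, IsFold 5 117 s A := by
  choose c hc1 hc2 hc3 using exists_crt
  refine ⟨fun x y => s (c x y), ?_⟩
  intro i hi
  have h1 : c (i : ZMod 5) (i : ZMod 117) ≡ i [MOD 5] :=
    (ZMod.natCast_eq_natCast_iff _ _ _).1 (hc2 _ _)
  have h2 : c (i : ZMod 5) (i : ZMod 117) ≡ i [MOD 117] :=
    (ZMod.natCast_eq_natCast_iff _ _ _).1 (hc3 _ _)
  have h3 : c (i : ZMod 5) (i : ZMod 117) ≡ i [MOD 5 * 117] :=
    (Nat.modEq_and_modEq_iff_modEq_mul (by norm_num)).1 ⟨h1, h2⟩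
  have h4 : c (i : ZMod 5) (i : ZMod 117) = i :=
    Nat.ModEq.eq_of_lt_of_lt h3 (hc1 _ _) hi
  show s (c (i : ZMod 5) (i : ZMod 117)) = s i
  rw [h4]

lemma IsFold.unique {s : ℕ → ZMod 2} {A B : Arr 5 117} (hA : IsFold 5 117 s A)
    (hB : IsFold 5 117 s B) : A = B := by
  funext x y
  obtain ⟨n, hn, rfl, rfl⟩ := exists_crt x y
  rw [hA n hn, hB n hn]

lemma IsFold.seq_unique {s t : ℕ → ZMod 2} (hs : Per s) (ht : Per t) {A : Arr 5 117}
    (hA : IsFold 5 117 s A) (hB : IsFold 5 117 t A) : s = t := by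
  funext n
  rw [← hA.apply hs, ← hB.apply ht]

lemma IsFold.shift {s : ℕ → ZMod 2} (hs : Per s) {A : Arr 5 117} (hA : IsFold 5 117 s A)
    (k : ℕ) : IsFold 5 117 (fun n => s (n + k)) (cshift (k : ZMod 5) (k : ZMod 117) A) := by
  intro i _
  show A ((i : ZMod 5) + (k : ZMod 5)) ((i : ZMod 117) + (k : ZMod 117)) = s (i + k)
  rw [← hA.apply hs (i + k)]
  push_cast
  rfl

lemma IsFold.add {s t : ℕ → ZMod 2} {A B : Arr 5 117} (hA : IsFold 5 117 s A)
    (hB : IsFold 5 117 t B) : IsFold 5 117 (s + t) (A + B) := by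
  intro i hi
  show A _ _ + B _ _ = s i + t i
  rw [hA i hi, hB i hi]

lemma window_eq (n1 n2 : ℕ) (A : Arr 5 117) (i : ZMod 5) (j : ZMod 117) :
    window n1 n2 A i j = window n1 n2 (cshift i j A) 0 0 := by
  funext a b
  simp [window, cshift, add_comm]

lemma window_add (n1 n2 : ℕ) (A B : Arr 5 117) (i : ZMod 5) (j : ZMod 117) :
    window n1 n2 (A + B) i j = window n1 n2 A i j + window n1 n2 B i j := rfl

lemma IsGen.shift {f : (ZMod 2)[X]} {s : ℕ → ZMod 2} (h : IsGen f s) (k : ℕ) :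
    IsGen f (fun n => s (n + k)) := by
  intro n
  have := h (n + k)
  simpa [add_right_comm] using this

lemma IsGen.add {f : (ZMod 2)[X]} {s t : ℕ → ZMod 2} (h : IsGen f s) (h' : IsGen f t) :
    IsGen f (s + t) := by
  intro n
  have := congrArg₂ (· + ·) (h n) (h' n)
  simpa [mul_add, Finset.sum_add_distrib] using this

lemma add_self_eq (x : ZMod 2) : x + x = 0 := by revert x; decide

lemma seq_add_self (s : ℕ → ZMod 2) : s + s = 0 := by
  funext n; exact add_self_eq _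

lemma seq_eq_of_add (s t : ℕ → ZMod 2) (h : s + t = 0) : s = t := by
  funext n
  have h1 : s n + t n = 0 := congrFun h n
  have : ∀ x y : ZMod 2, x + y = 0 → x = y := by decide
  exact this _ _ h1

/-- The criterion for a folding to be a PRAC. -/
theorem isPRAC_of {f : (ZMod 2)[X]} {n1 n2 : ℕ} {C : Set (Arr 5 117)}
    (hC : IsFolding 5 117 f C) (hdvd : 5 * 117 ∣ 2 ^ (n1 * n2) - 1)
    (hper : ∀ s, IsGen f s → Per s)
    (hinj : ∀ s, IsGen f s → ∀ A, IsFold 5 117 s A → window n1 n2 A 0 0 = 0 → s = 0)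
    (hsurj : ∀ M, ∃ s A, IsGen f s ∧ IsFold 5 117 s A ∧ window n1 n2 A 0 0 = M)
    (hmin : ∀ s, IsGen f s → s ≠ 0 → ∀ k k' : ℕ, (∀ n, s (n + k) = s (n + k')) →
      k ≡ k' [MOD 585]) : IsPRAC 5 117 n1 n2 C := by
  obtain ⟨R, hR, hRu, rfl⟩ := hC
  refine ⟨hdvd, ?_, ?_⟩
  · intro M hM
    obtain ⟨s, A, hs, hA, hw⟩ := hsurj M
    have hs0 : s ≠ 0 := by
      rintro rfl
      apply hM
      rw [← hw]
      funext a b
      show A _ _ = 0
      obtain ⟨n, hn, h1, h2⟩ := exists_crt (0 + ((a : ℕ) : ZMod 5)) (0 + ((b : ℕ) : ZMod 117))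
      rw [← h1, ← h2, hA n hn]
      rfl
    obtain ⟨t, ⟨htR, k, hk⟩, hun⟩ := hRu s hs hs0
    have htp := hper t (hR t htR).1
    obtain ⟨B, hB⟩ := exists_fold htp
    have hBA : cshift (k : ZMod 5) (k : ZMod 117) B = A := by
      refine IsFold.unique (hB.shift htp k) ?_
      have : s = fun n => t (n + k) := funext hk
      rwa [← this]
    refine ⟨(B, (k : ZMod 5), (k : ZMod 117)), ⟨⟨t, htR, hB⟩, ?_⟩, ?_⟩
    · show window n1 n2 B _ _ = M
      rw [window_eq, hBA, hw]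
    · rintro ⟨B', i', j'⟩ ⟨⟨t', ht'R, hB'⟩, hw'⟩
      obtain ⟨k', hk', hi, hj⟩ := exists_crt i' j'
      have hi' : i' = (k' : ZMod 5) := hi.symm
      have hj' : j' = (k' : ZMod 117) := hj.symm
      subst hi' hj'
      have ht'p := hper t' (hR t' ht'R).1
      have hsh := hB'.shift ht'p k'
      have hw2 : window n1 n2 (cshift (k' : ZMod 5) (k' : ZMod 117) B') 0 0 = M := by
        rw [← window_eq]; exact hw'
      have hsum : (fun n => t' (n + k')) + s = 0 := by
        refine hinj _ (((hR t' ht'R).1.shift k').add hs) _ (hsh.add hA) ?_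
        rw [window_add, hw2, hw]
        funext a b
        exact add_self_eq _
      have hst : (fun n => t' (n + k')) = s := seq_eq_of_add _ _ hsum
      have htt : t' = t := hun t' ⟨ht'R, k', fun n => (congrFun hst n).symm⟩
      subst htt
      have hkk : k' ≡ k [MOD 585] := by
        refine hmin t' (hR t' ht'R).1 (hR t' ht'R).2 k' k fun n => ?_
        rw [← hk n]
        exact congrFun hst n
      have e1 : (k' : ZMod 5) = k := (ZMod.natCast_eq_natCast_iff _ _ _).2 (hkk.of_dvd (by norm_num))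
      have e2 : (k' : ZMod 117) = k :=
        (ZMod.natCast_eq_natCast_iff _ _ _).2 (hkk.of_dvd (by norm_num))
      have hBB : B' = B := IsFold.unique hB' hB
      rw [e1, e2, hBB]
  · intro A B h
    have key : ∃ s t, IsGen f s ∧ IsGen f t ∧ IsFold 5 117 s A ∧ IsFold 5 117 t B ∧ A ≠ B := by
      rcases h with ⟨⟨s, hsR, hA⟩, ⟨t, htR, hB⟩, hne⟩ | ⟨⟨s, hsR, hA⟩, ⟨a, b, hab⟩, hne⟩
      · exact ⟨s, t, (hR s hsR).1, (hR t htR).1, hA, hB, hne⟩
      · obtain ⟨k, _, hi, hj⟩ := exists_crt a b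
        subst hi hj
        refine ⟨s, fun n => s (n + k), (hR s hsR).1, (hR s hsR).1.shift k, hA, ?_, hne⟩
        rw [hab]
        exact hA.shift (hper s (hR s hsR).1) k
    obtain ⟨s, t, hs, ht, hA, hB, hne⟩ := key
    have hst0 : s + t ≠ 0 := by
      intro h0
      apply hne
      have := seq_eq_of_add _ _ h0
      subst this
      exact IsFold.unique hA hB
    obtain ⟨r, ⟨hrR, k, hk⟩, -⟩ := hRu (s + t) (hs.add ht) hst0
    have hrp := hper r (hR r hrR).1
    obtain ⟨D, hD⟩ := exists_fold hrp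
    refine ⟨D, ⟨r, hrR, hD⟩, (k : ZMod 5), (k : ZMod 117), ?_⟩
    refine IsFold.unique (hA.add hB) ?_
    have : s + t = fun n => r (n + k) := funext hk
    rw [this]
    exact hD.shift hrp k

/-- The criterion for a folding not to be a PRAC. -/
theorem not_isPRAC_of {f : (ZMod 2)[X]} {n1 n2 : ℕ} {C : Set (Arr 5 117)}
    (hC : IsFolding 5 117 f C) (hper : ∀ s, IsGen f s → Per s)
    (s : ℕ → ZMod 2) (hs : IsGen f s) (hs0 : s ≠ 0) (A : Arr 5 117) (hA : IsFold 5 117 s A)
    (hw : window n1 n2 A 0 0 = 0)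
    (t : ℕ → ZMod 2) (ht : IsGen f t) (B : Arr 5 117) (hB : IsFold 5 117 t B)
    (hwt : window n1 n2 B 0 0 ≠ 0) : ¬ IsPRAC 5 117 n1 n2 C := by
  intro hP
  obtain ⟨R, hR, hRu, rfl⟩ := hC
  have key : ∀ u : ℕ → ZMod 2, IsGen f u → ∀ D : Arr 5 117, IsFold 5 117 u D →
      window n1 n2 D 0 0 = window n1 n2 B 0 0 → ∃ p : Arr 5 117 × ZMod 5 × ZMod 117,
      (p.1 ∈ {A | ∃ s ∈ R, IsFold 5 117 s A} ∧
        window n1 n2 p.1 p.2.1 p.2.2 = window n1 n2 B 0 0) ∧ D = cshift p.2.1 p.2.2 p.1 := by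
    intro u hu D hD hwD
    have hu0 : u ≠ 0 := by
      rintro rfl
      apply hwt
      rw [← hwD]
      funext a b
      show D _ _ = 0
      obtain ⟨n, hn, h1, h2⟩ := exists_crt (0 + ((a : ℕ) : ZMod 5)) (0 + ((b : ℕ) : ZMod 117))
      rw [← h1, ← h2, hD n hn]
      rfl
    obtain ⟨r, ⟨hrR, k, hk⟩, -⟩ := hRu u hu hu0
    have hrp := hper r (hR r hrR).1
    obtain ⟨E, hE⟩ := exists_fold hrp
    have hED : D = cshift (k : ZMod 5) (k : ZMod 117) E := by
      refine IsFold.unique hD ?_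
      have : u = fun n => r (n + k) := funext hk
      rw [this]
      exact hE.shift hrp k
    refine ⟨(E, (k : ZMod 5), (k : ZMod 117)), ⟨⟨r, hrR, hE⟩, ?_⟩, hED⟩
    show window n1 n2 E _ _ = _
    rw [window_eq, ← hED, hwD]
  obtain ⟨p, hp, hpB⟩ := key t ht B hB rfl
  obtain ⟨q, hq, hqB⟩ := key (t + s) (ht.add hs) (B + A) (hB.add hA) (by
    rw [window_add, hw, add_zero])
  have hpq := (hP.window_unique _ hwt).unique hp hq
  have hBA : B + A = B := by rw [hqB, ← hpq, ← hpB]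
  have hts : t + s = t := by
    refine IsFold.seq_unique (hper _ (ht.add hs)) (hper _ ht) (hB.add hA) ?_
    rw [hBA]; exact hB
  exact hs0 (add_eq_left.1 hts)

/-- Foldings exist. -/
theorem exists_isFolding {f : (ZMod 2)[X]} (hper : ∀ s, IsGen f s → Per s) :
    ∃ C, IsFolding 5 117 f C := by
  let S : Type := {s : ℕ → ZMod 2 // IsGen f s ∧ s ≠ 0}
  let r : Setoid S :=
    { r := fun s t => ∃ k : ℕ, ∀ n, s.1 n = t.1 (n + k)
      iseqv := by
        refine ⟨fun s => ⟨0, fun n => rfl⟩, ?_, ?_⟩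
        · rintro s t ⟨k, hk⟩
          refine ⟨584 * k, fun n => ?_⟩
          rw [hk, show n + 584 * k + k = n + k * 585 by omega]
          exact (Function.Periodic.nat_mul (f := t.1) (c := 585) (hper _ t.2.1) k n).symm
        · rintro s t u ⟨k, hk⟩ ⟨l, hl⟩
          exact ⟨k + l, fun n => by rw [hk, hl, add_assoc]⟩ }
  let R : Set (ℕ → ZMod 2) := {s | ∃ q : Quotient r, s = (Quotient.out q).1}
  refine ⟨_, R, ?_, ?_, rfl⟩
  · rintro s ⟨q, rfl⟩
    exact (Quotient.out q).2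
  · intro s hs hs0
    let s' : S := ⟨s, hs, hs0⟩
    have hout : r.r (Quotient.out (Quotient.mk r s')) s' := Quotient.exact (Quotient.out_eq _)
    refine ⟨(Quotient.out (Quotient.mk r s')).1, ⟨⟨_, rfl⟩, r.symm hout⟩, ?_⟩
    rintro t ⟨⟨q, rfl⟩, hk⟩
    have h1 : r.r s' (Quotient.out q) := hk
    have h2 : Quotient.mk r s' = q := by
      rw [← Quotient.out_eq q]
      exact Quotient.sound h1
    rw [h2]

/-! ### The hypotheses for `f₁` and `f₂` -/

lemma hmin_of {f : (ZMod 2)[X]} {F : ℕ} (h : Mask f 12 F) (hc : Cert F) (s : ℕ → ZMod 2)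
    (hs : IsGen f s) (hs0 : s ≠ 0) (k k' : ℕ) (hk : ∀ n, s (n + k) = s (n + k')) :
    k ≡ k' [MOD 585] := by
  have hrec := (h.isGen_iff s).1 hs
  have hper : Per s := fun n => periodic_of_rm add_self_eq hrec h.top h.pos hc.one n
  wlog hle : k ≤ k' generalizing k k'
  · exact (this k' k (fun n => (hk n).symm) (by omega)).symm
  let σ : (ℕ → ZMod 2) → (ℕ → ZMod 2) := fun u n => u (n + 1)
  have hσ : ∀ e : ℕ, ∀ u, σ^[e] u = fun n => u (n + e) := by
    intro e
    induction e with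
    | zero => intro u; rfl
    | succ e ih =>
      intro u
      rw [Function.iterate_succ_apply, ih]
      funext n
      show u (n + e + 1) = u (n + (e + 1))
      rw [add_assoc]
  have hP1 : Function.IsPeriodicPt σ 585 s := by
    show σ^[585] s = s
    rw [hσ]; funext n; exact hper n
  have hP2 : Function.IsPeriodicPt σ (k' - k) s := by
    show σ^[k' - k] s = s
    rw [hσ]
    funext n
    show s (n + (k' - k)) = s n
    have h1 : ∀ m, s (m + 585 * k) = s m := by
      intro m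
      have := Function.Periodic.nat_mul (f := s) (c := 585) hper k m
      rw [mul_comm] at this
      exact this
    rw [← h1 (n + (k' - k)), ← h1 n]
    have := hk (n + 584 * k)
    rw [show n + (k' - k) + 585 * k = n + 584 * k + k' by omega, ← this]
    exact congrArg s (by omega)
  have hP := hP1.gcd hP2
  have hg : ∀ g ∈ Nat.divisors 585, g = 585 ∨ g ∣ 195 ∨ g ∣ 117 ∨ g ∣ 45 := by decide +kernel
  have hcontra : ∀ e, (∃ U : List ℕ, xl 12 F (U.flatMap fun i => [e + i, i]) = 1) →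
      ¬ Nat.gcd 585 (k' - k) ∣ e := by
    rintro e ⟨U, hU⟩ hd
    apply hs0
    refine eq_zero_of_periodic add_self_eq hrec h.top h.pos U hU ?_
    intro n
    have := hP.trans_dvd hd
    have h1 : σ^[e] s = s := this
    rw [hσ] at h1
    exact congrFun h1 n
  rcases hg (Nat.gcd 585 (k' - k)) (Nat.mem_divisors.2 ⟨Nat.gcd_dvd_left _ _, by norm_num⟩)
    with h1 | h1 | h1 | h1
  · have h2 : 585 ∣ k' - k := h1 ▸ Nat.gcd_dvd_right _ _
    exact (Nat.modEq_iff_dvd' hle).2 h2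
  · exact absurd h1 (hcontra _ hc.a)
  · exact absurd h1 (hcontra _ hc.b)
  · exact absurd h1 (hcontra _ hc.c)

/-- The positions of the `3 × 4` window. -/
def cs : List ℕ := [0, 235, 470, 120, 351, 1, 236, 471, 117, 352, 2, 237]

lemma cs_spec : ∀ c ∈ cs, c < 585 ∧ ∃ a : Fin 3, ∃ b : Fin 4,
    (c : ZMod 5) = 0 + ((a : ℕ) : ZMod 5) ∧ (c : ZMod 117) = 0 + ((b : ℕ) : ZMod 117) := by
  decide +kernel

lemma hinj_of {f : (ZMod 2)[X]} {F : ℕ} (h : Mask f 12 F) (Q : List (List ℕ))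
    (hQ : ∀ k < 12, xl 12 F (Q.getD k []) = 2 ^ k) (hQc : ∀ k < 12, ∀ c ∈ Q.getD k [], c ∈ cs)
    (s : ℕ → ZMod 2) (hs : IsGen f s) (A : Arr 5 117) (hA : IsFold 5 117 s A)
    (hw : window 3 4 A 0 0 = 0) : s = 0 := by
  refine eq_zero_of_window add_self_eq ((h.isGen_iff s).1 hs) h.top h.pos Q hQ ?_
  intro k hk c hc
  obtain ⟨hc1, a, b, ha, hb⟩ := cs_spec c (hQc k hk c hc)
  rw [← hA c hc1, ha, hb]
  exact congrFun (congrFun hw a) b

lemma hsurj_of {f : (ZMod 2)[X]} {F : ℕ} (h : Mask f 12 F)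
    (hper : ∀ s, IsGen f s → Per s)
    (hinj : ∀ s, IsGen f s → ∀ A, IsFold 5 117 s A → window 3 4 A 0 0 = 0 → s = 0)
    (M : Fin 3 → Fin 4 → ZMod 2) :
    ∃ s A, IsGen f s ∧ IsFold 5 117 s A ∧ window 3 4 A 0 0 = M := by
  let E : LinearRecurrence (ZMod 2) := ⟨12, fun i => if F.testBit i then 1 else 0⟩
  have hE : ∀ init, IsGen f (E.mkSol init) := by
    intro init
    rw [h.isGen_iff]
    intro n
    have h1 := E.is_sol_mkSol init n
    rw [Finset.sum_range_succ, h.top, if_pos rfl]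
    have h2 : E.mkSol init (n + 12) = ∑ i : Fin 12, (if F.testBit i then 1 else 0) *
      E.mkSol init (n + i) := h1
    rw [h2, ← Fin.sum_univ_eq_sum_range (fun k => if F.testBit k then E.mkSol init (n + k) else 0)]
    simp only [ite_mul, one_mul, zero_mul]
    exact add_self_eq _
  choose A hA using fun init => exists_fold (hper _ (hE init))
  let Φ : (Fin 12 → ZMod 2) → (Fin 3 → Fin 4 → ZMod 2) := fun init => window 3 4 (A init) 0 0
  have hΦ : Function.Injective Φ := by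
    intro u v huv
    have h1 : E.mkSol u + E.mkSol v = 0 := by
      refine hinj _ ((hE u).add (hE v)) (A u + A v) ((hA u).add (hA v)) ?_
      rw [window_add]
      have : window 3 4 (A u) 0 0 = window 3 4 (A v) 0 0 := huv
      rw [this]
      funext a b
      exact add_self_eq _
    have h2 := seq_eq_of_add _ _ h1
    funext i
    have h3 := E.mkSol_eq_init u i
    have h4 := E.mkSol_eq_init v i
    rw [← h3, ← h4, h2]
  have hbij : Function.Bijective Φ := by
    rw [Fintype.bijective_iff_injective_and_card]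
    refine ⟨hΦ, ?_⟩
    simp only [Fintype.card_pi, Fintype.card_fin, Finset.prod_const, Finset.card_univ, ZMod.card]
    norm_num
  obtain ⟨u, hu⟩ := hbij.2 M
  exact ⟨_, _, hE u, hA u, hu⟩

lemma cert1 : Cert F1 := ⟨rm1, ⟨_, u1a⟩, ⟨_, u1b⟩, ⟨_, u1c⟩⟩
lemma cert2 : Cert F2 := ⟨rm2, ⟨_, u2a⟩, ⟨_, u2b⟩, ⟨_, u2c⟩⟩

lemma per_of {f : (ZMod 2)[X]} {N F : ℕ} (h : Mask f N F) (h1 : rm N F 585 = 1)
    (s : ℕ → ZMod 2) (hs : IsGen f s) : Per s :=
  fun n => periodic_of_rm add_self_eq ((h.isGen_iff s).1 hs) h.top h.pos h1 n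

lemma prac_of {f : (ZMod 2)[X]} {F : ℕ} (h : Mask f 12 F) (hc : Cert F) (Q : List (List ℕ))
    (hQ : ∀ k < 12, xl 12 F (Q.getD k []) = 2 ^ k) (hQc : ∀ k < 12, ∀ c ∈ Q.getD k [], c ∈ cs)
    {C : Set (Arr 5 117)} (hC : IsFolding 5 117 f C) : IsPRAC 5 117 3 4 C := by
  have hper := per_of h hc.one
  have hinj := hinj_of h Q hQ hQc
  exact isPRAC_of hC (by norm_num) hper hinj (hsurj_of h hper hinj) (hmin_of h hc)

/-! ### The product -/

/-- The values of a nonzero sequence generated by `f₁ f₂` with vanishing `3 × 8` window. -/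
def big : ℕ := 36269768459867502078383990014121459622293913547855966736431371919121589879444012146119487672143335896067749420040364513632558828985046548988160677049104804954336330430828675584

/-- The sequence. -/
def s0 (n : ℕ) : ZMod 2 := if big.testBit (n % 585) then 1 else 0

lemma s0_rec_aux : ∀ n < 585, ∑ k ∈ Finset.range 25,
    (if F3.testBit k then s0 (n + k) else 0) = 0 := by decide +kernel

lemma s0_rec : Rec 24 F3 s0 := by
  intro n
  have h := s0_rec_aux (n % 585) (Nat.mod_lt _ (by norm_num))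
  have h1 : ∀ k, s0 (n + k) = s0 (n % 585 + k) := by
    intro k
    have h2 : (n + k) % 585 = (n % 585 + k) % 585 := by omega
    show (if big.testBit ((n + k) % 585) then (1 : ZMod 2) else 0) =
      if big.testBit ((n % 585 + k) % 585) then 1 else 0
    rw [h2]
  refine Eq.trans (Finset.sum_congr rfl fun k _ => ?_) h
  rw [h1]

lemma s0_window : ∀ a : Fin 3, ∀ b : Fin 8, ∃ n : ℕ, n < 585 ∧
    (n : ZMod 5) = 0 + ((a : ℕ) : ZMod 5) ∧ (n : ZMod 117) = 0 + ((b : ℕ) : ZMod 117) ∧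
      s0 n = 0 := by
  have h : ∀ a : Fin 3, ∀ b : Fin 8, ∃ n ∈ ([0, 235, 470, 120, 355, 5, 240, 475, 351, 1, 236,
    471, 121, 356, 6, 241, 117, 352, 2, 237, 472, 122, 357, 7] : List ℕ), n < 585 ∧
    (n : ZMod 5) = 0 + ((a : ℕ) : ZMod 5) ∧ (n : ZMod 117) = 0 + ((b : ℕ) : ZMod 117) ∧
      s0 n = 0 := by decide +kernel
  intro a b
  obtain ⟨n, -, h1⟩ := h a b
  exact ⟨n, h1⟩

lemma s0_nine : s0 9 = 1 := by decide +kernel

lemma not_prac {C : Set (Arr 5 117)} (hC : IsFolding 5 117 (f1 * f2) C) :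
    ¬ IsPRAC 5 117 3 8 C := by
  have hper := per_of mask3 rm3
  have hs : IsGen (f1 * f2) s0 := (mask3.isGen_iff s0).2 s0_rec
  have ht := hs.shift 9
  obtain ⟨A, hA⟩ := exists_fold (hper _ hs)
  obtain ⟨B, hB⟩ := exists_fold (hper _ ht)
  refine not_isPRAC_of hC hper s0 hs ?_ A hA ?_ _ ht B hB ?_
  · intro h
    have := congrFun h 9
    rw [s0_nine] at this
    exact absurd this (by decide)
  · funext a b
    obtain ⟨n, hn, h1, h2, h3⟩ := s0_window a b
    show A _ _ = 0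
    rw [← h1, ← h2, hA n hn, h3]
  · intro h
    have h1 : B (0 + (((0 : Fin 3) : ℕ) : ZMod 5)) (0 + (((0 : Fin 8) : ℕ) : ZMod 117)) = 0 :=
      congrFun (congrFun h 0) 0
    have h2 := hB 0 (by norm_num)
    have h3 : B (0 + (((0 : Fin 3) : ℕ) : ZMod 5)) (0 + (((0 : Fin 8) : ℕ) : ZMod 117)) =
        B ((0 : ℕ) : ZMod 5) ((0 : ℕ) : ZMod 117) := by
      congr 1
    rw [h3, h2] at h1
    have h4 : s0 (0 + 9) = 0 := h1
    rw [zero_add, s0_nine] at h4
    exact absurd h4 (by decide)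

lemma f1_ne_f2 : f1 ≠ f2 := by
  intro h
  have h1 := mask1.coeff 10 (by decide)
  have h2 := mask2.coeff 10 (by decide)
  rw [h, h2] at h1
  exact absurd h1 (by decide)

/-- **The folding of a product of irreducible polynomials need not be a PRAC**: there are
parameters with `n₁ < r₁ < 2 n₁` and two distinct irreducible polynomials of degree `n₁ n₂` and
exponent `r₁ r₂`, each of which folds to an `(r₁, r₂; n₁, n₂)`-PRAC, whereas the folding of their
product is not an `(r₁, r₂; n₁, 2 n₂)`-PRAC. -/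
theorem result : ∃ (n1 n2 r1 r2 : ℕ) (f g : (ZMod 2)[X]),
    n1 < r1 ∧ r1 < 2 * n1 ∧ Nat.Coprime r1 r2 ∧ f ≠ g ∧
    (Irreducible f ∧ f.natDegree = n1 * n2 ∧ exponent f = r1 * r2 ∧
      (∃ C, IsFolding r1 r2 f C) ∧ ∀ C, IsFolding r1 r2 f C → IsPRAC r1 r2 n1 n2 C) ∧
    (Irreducible g ∧ g.natDegree = n1 * n2 ∧ exponent g = r1 * r2 ∧
      (∃ C, IsFolding r1 r2 g C) ∧ ∀ C, IsFolding r1 r2 g C → IsPRAC r1 r2 n1 n2 C) ∧
    (∃ C, IsFolding r1 r2 (f * g) C) ∧
      ∀ C, IsFolding r1 r2 (f * g) C → ¬ IsPRAC r1 r2 n1 (2 * n2) C := by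
  refine ⟨3, 4, 5, 117, f1, f2, by norm_num, by norm_num, by norm_num, f1_ne_f2,
    ⟨mask1.irreducible cert1, mask1.deg, mask1.exponent_eq cert1,
      exists_isFolding (per_of mask1 rm1), fun C hC => prac_of mask1 cert1 Q1 hQ1 ?_ hC⟩,
    ⟨mask2.irreducible cert2, mask2.deg, mask2.exponent_eq cert2,
      exists_isFolding (per_of mask2 rm2), fun C hC => prac_of mask2 cert2 Q2 hQ2 ?_ hC⟩,
    exists_isFolding (per_of mask3 rm3), fun C hC => not_prac hC⟩
  · decide
  · decide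

end Pool.Agent.Results.MP_2c8f22_co.FoldingProduct
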